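import Mathlib
import Pool.Agent.W931.LC.Props

set_option autoImplicit false

/-!
# A product of Levy collapses below measurable cardinals: deciding conditions are dense
-/

namespace Pool.Agent.W597.LC

open Cardinal Pool.Agent.Helper669.Forcing Pool.Agent.Helper669.K Pool.Agent.Helper669.U
  Pool.Agent.Helper669.V Pool.Agent.W931.KH Pool.Agent.W931.LC

variable (Q : Par)

/-! ### The measures -/

theorem const (j : I) {X : Type} (hX : #X < Q.ka j) (F : (Q.ka j).ord.ToType → X) :
    ∃ x, {b | F b = x} ∈ Q.U j := by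
  by_contra hcon
  push Not at hcon
  have h1 : ∀ x, {b | F b = x}ᶜ ∈ Q.U j := fun x => Ultrafilter.compl_mem_iff_notMem.2 (hcon x)
  have h2 := Q.comp j X hX (fun x => {b | F b = x}ᶜ) h1
  have h3 : (⋂ x, {b | F b = x}ᶜ) = ∅ := by
    ext b
    simp
  rw [h3] at h2
  exact Ultrafilter.empty_notMem h2

theorem inter_const (j : I) {M : Type} (hM : #M < Q.ka j)
    {P : (Q.ka j).ord.ToType → M → Prop} (h : ∀ m, {b | P b m} ∈ Q.U j) :
    {b | ∀ m, P b m} ∈ Q.U j := by
  have h1 := Q.comp j M hM (fun m => {b | P b m}) h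
  refine Filter.mem_of_superset h1 ?_
  intro b hb m
  exact Set.mem_iInter.1 hb m

theorem const2 (j : I) {M X : Type} (hM : #M < Q.ka j) (hX : #X < Q.ka j)
    (F : (Q.ka j).ord.ToType → M → X) : ∃ G : M → X, {b | ∀ m, F b m = G m} ∈ Q.U j := by
  choose G hG using fun m => const Q j hX (fun b => F b m)
  exact ⟨G, inter_const Q j hM hG⟩

theorem reg1 (j : I) {M : Type} (hM : #M < Q.ka j)
    (g : (Q.ka j).ord.ToType → M → Option (Q.ka j).ord.ToType)
    (hg : ∀ b m a, g b m = some a → a < b) :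
    ∃ G : M → Option (Q.ka j).ord.ToType, {b | ∀ m, g b m = G m} ∈ Q.U j := by
  have h1 : ∀ m, ∃ v, {b | g b m = v} ∈ Q.U j := by
    intro m
    by_cases h : {b | g b m = none} ∈ Q.U j
    · exact ⟨none, h⟩
    · have h2 : {b | g b m = none}ᶜ ∈ Q.U j := Ultrafilter.compl_mem_iff_notMem.2 h
      have h3 : {b | (g b m).getD b < b} ∈ Q.U j := by
        refine Filter.mem_of_superset h2 ?_
        intro b hb
        obtain ⟨a, ha⟩ := Option.ne_none_iff_exists'.1 (show g b m ≠ none from hb)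
        show (g b m).getD b < b
        rw [ha]
        exact hg b m a ha
      obtain ⟨a, ha⟩ := Q.norm j (fun b => (g b m).getD b) h3
      refine ⟨some a, Filter.mem_of_superset (Filter.inter_mem h2 ha) ?_⟩
      rintro b ⟨hb1, hb2⟩
      obtain ⟨a', ha'⟩ := Option.ne_none_iff_exists'.1 (show g b m ≠ none from hb1)
      have hb3 : (g b m).getD b = a := hb2
      rw [ha'] at hb3
      show g b m = some a
      rw [ha', ← hb3]
      rfl
  choose G hG using h1
  exact ⟨G, inter_const Q j hM hG⟩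

/-- Enumeration of a small set. -/
theorem enum {A M : Type} (T : Set A) (h : #T ≤ #M) :
    ∃ e : M → Option A, ∀ t, t ∈ T ↔ ∃ m, e m = some t := by
  classical
  obtain ⟨ψ⟩ := Cardinal.le_def _ _ |>.1 h
  refine ⟨fun m => if h : ∃ t : T, ψ t = m then some h.choose.1 else none, fun t => ⟨?_, ?_⟩⟩
  · intro ht
    have h1 : ∃ t' : T, ψ t' = ψ ⟨t, ht⟩ := ⟨⟨t, ht⟩, rfl⟩
    refine ⟨ψ ⟨t, ht⟩, ?_⟩
    dsimp only
    rw [dif_pos h1]
    have h2 : h1.choose = ⟨t, ht⟩ := ψ.injective h1.choose_spec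
    rw [h2]
  · rintro ⟨m, hm⟩
    dsimp only at hm
    by_cases h1 : ∃ t : T, ψ t = m
    · rw [dif_pos h1] at hm
      rw [← Option.some.inj hm]
      exact h1.choose.2
    · rw [dif_neg h1] at hm
      exact absurd hm (by simp)

theorem opt3 {A B C : Type} (o o' : Option (A × B × C)) (h1 : o.map (·.1) = o'.map (·.1))
    (h2 : o.map (·.2.1) = o'.map (·.2.1)) (h3 : o.map (·.2.2) = o'.map (·.2.2)) : o = o' := by
  rcases o with _ | ⟨a, b, c⟩ <;> rcases o' with _ | ⟨a', b', c'⟩ <;> simp at h1 h2 h3 ⊢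
  exact ⟨h1, h2, h3⟩

open Classical in
/-- The part of a condition below `b`. -/
noncomputable def lowp {mu ka : Cardinal.{0}} (c : Co mu ka) (b : ka.ord.ToType) : Co mu ka where
  f a x := if a < b then c.f a x else none
  small := by
    refine lt_of_le_of_lt (Cardinal.mk_le_mk_of_subset (s := {z : ka.ord.ToType × mu.ord.ToType |
      (if z.1 < b then c.f z.1 z.2 else none) ≠ none})
      (t := {z : ka.ord.ToType × mu.ord.ToType | c.f z.1 z.2 ≠ none}) ?_) c.small
    intro z hz hz'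
    apply hz
    show (if z.1 < b then c.f z.1 z.2 else none) = none
    rw [hz']
    split_ifs <;> rfl
  reg := by
    intro a x d h
    by_cases hab : a < b
    · rw [if_pos hab] at h
      exact c.reg a x d h
    · rw [if_neg hab] at h
      exact absurd h (by simp)

open Classical in
/-- The part of a condition at least `b`. -/
noncomputable def hip {mu ka : Cardinal.{0}} (c : Co mu ka) (b : ka.ord.ToType) : Co mu ka where
  f a x := if a < b then none else c.f a x
  small := by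
    refine lt_of_le_of_lt (Cardinal.mk_le_mk_of_subset (s := {z : ka.ord.ToType × mu.ord.ToType |
      (if z.1 < b then none else c.f z.1 z.2) ≠ none})
      (t := {z : ka.ord.ToType × mu.ord.ToType | c.f z.1 z.2 ≠ none}) ?_) c.small
    intro z hz hz'
    apply hz
    show (if z.1 < b then none else c.f z.1 z.2) = none
    rw [hz']
    split_ifs <;> rfl
  reg := by
    intro a x d h
    by_cases hab : a < b
    · rw [if_pos hab] at h
      exact absurd h (by simp)
    · rw [if_neg hab] at h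
      exact c.reg a x d h

theorem mk_M (j : I) : #(Q.mu j).ord.ToType < Q.ka j := by
  rw [mk_ord_toType]
  exact Q.mu_lt_ka j

theorem lowconst (j : I) (f : (Q.ka j).ord.ToType → Co (Q.mu j) (Q.ka j)) :
    ∃ c : Co (Q.mu j) (Q.ka j), {b | lowp (f b) b = c} ∈ Q.U j := by
  classical
  -- the entries below `b`
  have h1 : ∀ b, ∃ e : (Q.mu j).ord.ToType →
      Option ((Q.ka j).ord.ToType × (Q.mu j).ord.ToType × (Q.ka j).ord.ToType),
      ∀ t, (t.1 < b ∧ (f b).f t.1 t.2.1 = some t.2.2) ↔ ∃ m, e m = some t := by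
    intro b
    refine enum {t : (Q.ka j).ord.ToType × (Q.mu j).ord.ToType × (Q.ka j).ord.ToType |
      t.1 < b ∧ (f b).f t.1 t.2.1 = some t.2.2} ?_
    rw [mk_ord_toType]
    refine le_trans ?_ (f b).small.le
    refine Cardinal.mk_le_of_injective (f := fun t => ⟨(t.1.1, t.1.2.1), ?_⟩) ?_
    · have := t.2.2
      show (f b).f t.1.1 t.1.2.1 ≠ none
      rw [this]
      simp
    · intro t t' h
      simp only [Subtype.mk.injEq, Prod.mk.injEq] at h
      have e1 := t.2.2
      have e2 := t'.2.2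
      rw [h.1, h.2] at e1
      rw [e1] at e2
      exact Subtype.ext (Prod.ext h.1 (Prod.ext h.2 (Option.some.inj e2)))
  choose e he using h1
  obtain ⟨G1, hG1⟩ := reg1 Q j (mk_M Q j) (fun b m => (e b m).map (·.1)) (by
    intro b m a h
    obtain ⟨t, ht, rfl⟩ := Option.map_eq_some_iff.1 h
    exact ((he b t).2 ⟨m, ht⟩).1)
  obtain ⟨G3, hG3⟩ := reg1 Q j (mk_M Q j) (fun b m => (e b m).map (·.2.2)) (by
    intro b m a h
    obtain ⟨t, ht, rfl⟩ := Option.map_eq_some_iff.1 h
    have h2 := (he b t).2 ⟨m, ht⟩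
    exact ((f b).reg _ _ _ h2.2).trans h2.1)
  obtain ⟨G2, hG2⟩ := const2 Q j (mk_M Q j) (X := Option (Q.mu j).ord.ToType) (by
    rw [Cardinal.mk_option]
    exact Cardinal.add_lt_of_lt (Q.unc j).le (mk_M Q j) (Cardinal.one_lt_aleph0.trans (Q.unc j)))
    (fun b m => (e b m).map (·.2.1))
  have hZ := Filter.inter_mem hG1 (Filter.inter_mem hG2 hG3)
  obtain ⟨b0, hb0⟩ := Ultrafilter.nonempty_of_mem hZ
  refine ⟨lowp (f b0) b0, Filter.mem_of_superset hZ ?_⟩
  intro b hb
  have heq : ∀ m, e b m = e b0 m := by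
    intro m
    refine opt3 _ _ ?_ ?_ ?_
    · exact (hb.1 m).trans (hb0.1 m).symm
    · exact (hb.2.1 m).trans (hb0.2.1 m).symm
    · exact (hb.2.2 m).trans (hb0.2.2 m).symm
  show lowp (f b) b = lowp (f b0) b0
  have key : ∀ (b' : (Q.ka j).ord.ToType) a x d, (lowp (f b') b').f a x = some d ↔
      ∃ m, e b' m = some (a, x, d) := by
    intro b' a x d
    rw [← he b' (a, x, d)]
    show (if a < b' then (f b').f a x else none) = some d ↔ _
    by_cases hab : a < b'
    · simp [hab]
    · simp [hab]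
  ext a x d
  rw [key, key]
  simp only [heq]

/-! ### Counting -/

theorem mk_Co (mu ka : Cardinal.{0}) : #(Co mu ka) ≤ 2 ^ (ka * (mu * ka)) := by
  have hinj : Function.Injective (fun c : Co mu ka =>
      {t : ka.ord.ToType × mu.ord.ToType × ka.ord.ToType | c.f t.1 t.2.1 = some t.2.2}) := by
    intro c c' h
    ext a x d
    exact Set.ext_iff.1 h (a, x, d)
  refine (Cardinal.mk_le_of_injective hinj).trans ?_
  rw [Cardinal.mk_set, Cardinal.mk_prod, Cardinal.mk_prod]
  simp

theorem mk_low (j : I) : #(∀ i : Set.Iio j, Co (Q.mu i) (Q.ka i)) < Q.ka j := by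
  have hl0 : ℵ₀ ≤ Q.lam j := Q.aleph0_le_lam j
  have h1 : ∀ i : Set.Iio j, #(Co (Q.mu i) (Q.ka i)) ≤ 2 ^ Q.lam j := by
    intro i
    have hk : Q.ka i ≤ Q.lam j := Q.ka_le_lam i.2
    have hm : Q.mu i ≤ Q.lam j := (Q.mu_lt_ka i).le.trans hk
    refine (mk_Co _ _).trans ?_
    refine Cardinal.power_le_power_left two_ne_zero ?_
    calc Q.ka i * (Q.mu i * Q.ka i) ≤ Q.lam j * (Q.lam j * Q.lam j) :=
          mul_le_mul' hk (mul_le_mul' hm hk)
      _ = Q.lam j := by rw [Cardinal.mul_eq_self hl0, Cardinal.mul_eq_self hl0]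
  have h2 : #(Set.Iio j) < Q.ka j := by
    have h2 : #(Set.Iio j) < ℵ₁ := by simpa using Cardinal.mk_Iio_lt j
    exact h2.trans (Q.aleph1_lt_ka j)
  rw [Cardinal.mk_pi]
  refine (Cardinal.prod_le_prod _ _ h1).trans_lt ?_
  rw [Cardinal.prod_const', ← Cardinal.power_mul]
  exact Q.strong j _ (Cardinal.mul_lt_of_lt (Q.unc j).le (Q.lam_lt_ka j) h2)

/-! ### Extension of the stems -/

theorem ext_pt (i : I) (p : Pt (Q.mu i) (Q.ka i) (Q.U i)) (c : Co (Q.mu i) (Q.ka i))
    (hc : c ≤ p.c) : ∃ p' ≤ p, p'.c = c := by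
  obtain ⟨B, hB⟩ := bdd_ord (Q.reg i) {a | ∃ x, c.f a x ≠ none} (by
    refine lt_of_le_of_lt ?_ (c.small.trans (Q.mu_lt_ka i))
    refine Cardinal.mk_le_of_surjective (f := fun z => ⟨z.1.1, z.1.2, z.2⟩) ?_
    rintro ⟨a, x, hx⟩
    exact ⟨⟨(a, x), hx⟩, rfl⟩)
  refine ⟨⟨c, p.Z ∩ {b | B < b}, Filter.inter_mem p.hZ (Q.tail i B), p.s, ?_, p.hi⟩,
    ⟨hc, Set.inter_subset_left, fun b _ => le_rfl⟩, rfl⟩
  intro b hb a x hab
  by_contra hcon
  have h1 : a < B := hB a ⟨x, hcon⟩
  exact absurd (h1.trans (hb.2.trans_le hab)) (lt_irrefl a)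

/-- Deciding a named set. -/
theorem decide_ {P : Type} [Preorder P] (N : Set P) (p : P) :
    ∃ q ≤ p, q ∈ meets N ∨ q ∈ fnot (meets N) := by
  by_cases h : ∃ q ≤ p, q ∈ meets N
  · obtain ⟨q, hq, h⟩ := h
    exact ⟨q, hq, Or.inl h⟩
  · push Not at h
    exact ⟨p, le_rfl, Or.inr h⟩

open Classical in
/-- The coordinates `≤ j` of `l` and the other coordinates of `t`. -/
noncomputable def mixT (j : I) (l : Q.Cd) (t : ∀ i : Set.Ioi j, Co (Q.mu i) (Q.ka i)) : Q.Cd :=
  fun i => if h : j < i then t ⟨i, h⟩ else l i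

theorem mixT_le (j : I) (l : Q.Cd) {t t' : ∀ i : Set.Ioi j, Co (Q.mu i) (Q.ka i)} (h : t' ≤ t) :
    mixT Q j l t' ≤ mixT Q j l t := by
  intro i
  unfold mixT
  by_cases hi : j < i
  · rw [dif_pos hi, dif_pos hi]
    exact h ⟨i, hi⟩
  · rw [dif_neg hi, dif_neg hi]

/-- The set of the combined conditions that decide at `j`. -/
def DD (N : (Σ j, (Q.ka j).ord.ToType) → Set Q.Cd) (j : I) (ε : Bool) : Set Q.Ex :=
  {y | ∀ b ∈ (y j).Z, (ε = true → Q.pt y j b ∈ meets (N ⟨j, b⟩)) ∧
    (ε = false → Q.pt y j b ∈ fnot (meets (N ⟨j, b⟩)))}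

theorem pt_mono (j : I) {y y' : Q.Ex} (h : y' ≤ y) (b : (Q.ka j).ord.ToType)
    (hb : b ∈ (y' j).Z) : Q.pt y' j b ≤ Q.pt y j b := by
  intro i
  unfold Par.pt
  by_cases hi : i = j
  · subst hi
    rw [Function.update_self, Function.update_self]
    refine Q.le_join i ((Q.join_le_left i _ _).trans (h i).1) ?_
    exact (Q.join_le_right i _ _ b (fun a x hab => (y' i).lo b hb a x hab)
      (fun a x hab => (y' i).hi b a x hab)).trans ((h i).2.2 b hb)
  · rw [Function.update_of_ne hi, Function.update_of_ne hi]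
    exact (h i).1

theorem DD_down (N : (Σ j, (Q.ka j).ord.ToType) → Set Q.Cd) (j : I) (ε : Bool) :
    Down (DD Q N j ε) := by
  intro y hy y' hy' b hb
  have h1 := hy b ((hy' j).2.1 hb)
  have h2 := pt_mono Q j hy' b hb
  exact ⟨fun h => down_meets _ _ (h1.1 h) _ h2, fun h => down_fnot _ _ (h1.2 h) _ h2⟩

theorem step (N : (Σ j, (Q.ka j).ord.ToType) → Set Q.Cd) (j : I) (y : Q.Ex) :
    ∃ y' ≤ y, ∃ ε, y' ∈ DD Q N j ε := by
  classical
  -- the upper coordinates
  have hcl : SeqClosed (Order.succ (Q.ka j)) (∀ i : Set.Ioi j, Co (Q.mu i) (Q.ka i)) :=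
    Q.seqClosed (A := Set.Ioi j) fun i hi => Order.succ_le_of_lt (Q.ka_lt_mu hi)
  obtain ⟨t, ht, hD⟩ := hcl.exists_forall_mem (N := (Q.ka j).ord.ToType)
    (by rw [mk_ord_toType]; exact Order.lt_succ _)
    (fun b => {t | ∃ l : Q.Cd, (∀ i < j, l i ≤ (y i).c) ∧ l j ≤ Q.join j (y j).c ((y j).s b) ∧
      (mixT Q j l t ∈ meets (N ⟨j, b⟩) ∨ mixT Q j l t ∈ fnot (meets (N ⟨j, b⟩)))})
    (by
      rintro b t ⟨l, h1, h2, h3⟩ t' ht'
      refine ⟨l, h1, h2, ?_⟩
      rcases h3 with h3 | h3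
      · exact Or.inl (down_meets _ _ h3 _ (mixT_le Q j l ht'))
      · exact Or.inr (down_fnot _ _ h3 _ (mixT_le Q j l ht')))
    (by
      intro b t
      obtain ⟨q, hq, hq2⟩ := decide_ (N ⟨j, b⟩) (mixT Q j (Q.pt y j b) t)
      refine ⟨fun i => q i, ?_, q, ?_, ?_, ?_⟩
      · intro i
        have := hq i
        unfold mixT at this
        rw [dif_pos (show j < i.1 from i.2)] at this
        exact this
      · intro i hi
        have := hq i
        unfold mixT at this
        rw [dif_neg (not_lt.2 hi.le)] at this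
        unfold Par.pt at this
        rw [Function.update_of_ne hi.ne] at this
        exact this
      · have := hq j
        unfold mixT at this
        rw [dif_neg (lt_irrefl j)] at this
        unfold Par.pt at this
        rw [Function.update_self] at this
        exact this
      · have h5 : mixT Q j q (fun i => q i) = q := by
          funext i
          unfold mixT
          by_cases hi : j < i
          · rw [dif_pos hi]
          · rw [dif_neg hi]
        rw [h5]
        exact hq2)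
    (fun i => (y i).c)
  choose l hl1 hl2 hl3 using hD
  -- the constant parts
  obtain ⟨lc, hlc⟩ := const Q j (mk_low Q j) (fun b => fun i : Set.Iio j => l b i)
  obtain ⟨c, hc⟩ := lowconst Q j (fun b => l b j)
  obtain ⟨ε, hε⟩ := const Q j (X := Bool) (by
    exact (Cardinal.mk_lt_aleph0).trans (Q.unc j))
    (fun b => decide (mixT Q j (l b) t ∈ meets (N ⟨j, b⟩)))
  have hZ := Filter.inter_mem (Filter.inter_mem (y j).hZ hlc) (Filter.inter_mem hc hε)
  obtain ⟨b0, hb0⟩ := Ultrafilter.nonempty_of_mem hZ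
  -- the lower coordinates
  have hlow : ∀ i : I, i < j → ∃ p' ≤ y i, ∀ h : i < j, p'.c = lc ⟨i, h⟩ := by
    intro i hi
    obtain ⟨p', hp', hpc⟩ := ext_pt Q i (y i) (lc ⟨i, hi⟩) (by
      have h1 : (fun i : Set.Iio j => l b0 i) = lc := hb0.1.2
      rw [← h1]
      exact hl1 b0 i hi)
    exact ⟨p', hp', fun _ => hpc⟩
  have hupp : ∀ i : I, j < i → ∃ p' ≤ y i, ∀ h : j < i, p'.c = t ⟨i, h⟩ := by
    intro i hi
    obtain ⟨p', hp', hpc⟩ := ext_pt Q i (y i) (t ⟨i, hi⟩) (ht ⟨i, hi⟩)
    exact ⟨p', hp', fun _ => hpc⟩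
  have hlowf : ∀ b ∈ (y j).Z, ∀ a x d, (y j).c.f a x = some d → a < b := by
    intro b hb a x d h
    by_contra hcon
    rw [(y j).lo b hb a x (not_lt.1 hcon)] at h
    exact absurd h (by simp)
  have hmid : ∃ p' : Pt (Q.mu j) (Q.ka j) (Q.U j), p' ≤ y j ∧ ∀ b ∈ p'.Z,
      (fun i : Set.Iio j => l b i) = lc ∧ decide (mixT Q j (l b) t ∈ meets (N ⟨j, b⟩)) = ε ∧
      Q.join j p'.c (p'.s b) ≤ l b j := by
    refine ⟨⟨c, _, hZ, fun b => hip (l b j) b, ?_, ?_⟩, ⟨?_, ?_, ?_⟩, ?_⟩
    · intro b hb a x hab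
      have h1 : lowp (l b j) b = c := hb.2.1
      rw [← h1]
      show (if a < b then (l b j).f a x else none) = none
      rw [if_neg (not_lt.2 hab)]
    · intro b a x hab
      show (if a < b then none else (l b j).f a x) = none
      rw [if_pos hab]
    · intro a x d h
      have h1 : lowp (l b0 j) b0 = c := hb0.2.1
      show c.f a x = some d
      rw [← h1]
      show (if a < b0 then (l b0 j).f a x else none) = some d
      rw [if_pos (hlowf b0 hb0.1.1 a x d h)]
      exact (hl2 b0).trans (Q.join_le_left j _ _) a x d h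
    · intro b hb
      exact hb.1.1
    · intro b hb a x d h
      show (if a < b then none else (l b j).f a x) = some d
      have h1 : ¬ a < b := by
        intro hab
        rw [(y j).hi b a x hab] at h
        exact absurd h (by simp)
      rw [if_neg h1]
      exact (hl2 b).trans (Q.join_le_right j _ _ b (fun a x hab => (y j).lo b hb.1.1 a x hab)
        (fun a x hab => (y j).hi b a x hab)) a x d h
    · intro b hb
      refine ⟨hb.1.2, hb.2.2, ?_⟩
      intro a x d h
      have h1 : lowp (l b j) b = c := hb.2.1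
      show (c.f a x).or ((hip (l b j) b).f a x) = some d
      rw [← h1]
      show (if a < b then (l b j).f a x else none).or (if a < b then none else (l b j).f a x) =
        some d
      by_cases hab : a < b
      · rw [if_pos hab, if_pos hab, h]
        rfl
      · rw [if_neg hab, if_neg hab, h]
        rfl
  obtain ⟨pj, hpj, hpj2⟩ := hmid
  have hall : ∀ i : I, ∃ p' ≤ y i, (∀ h : i < j, p'.c = lc ⟨i, h⟩) ∧
      (∀ h : j < i, p'.c = t ⟨i, h⟩) ∧ ∀ h : i = j, p' = h ▸ pj := by
    intro i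
    rcases lt_trichotomy i j with hi | hi | hi
    · obtain ⟨p', hp', h⟩ := hlow i hi
      exact ⟨p', hp', h, fun h' => absurd h' (not_lt.2 hi.le), fun h' => absurd h' hi.ne⟩
    · subst hi
      exact ⟨pj, hpj, fun h' => absurd h' (lt_irrefl i), fun h' => absurd h' (lt_irrefl i),
        fun h' => rfl⟩
    · obtain ⟨p', hp', h⟩ := hupp i hi
      exact ⟨p', hp', fun h' => absurd h' (not_lt.2 hi.le), h, fun h' => absurd h' hi.ne'⟩
  choose y' hy' ha hb hc' using hall
  have hj : y' j = pj := hc' j rfl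
  refine ⟨y', hy', ε, ?_⟩
  intro b hbZ
  rw [hj] at hbZ
  obtain ⟨g1, g2, g3⟩ := hpj2 b hbZ
  have hle : Q.pt y' j b ≤ mixT Q j (l b) t := by
    intro i
    unfold mixT Par.pt
    by_cases hi : j < i
    · rw [dif_pos hi, Function.update_of_ne hi.ne']
      show (y' i).c ≤ _
      rw [hb i hi]
    · rw [dif_neg hi]
      rcases eq_or_lt_of_le (not_lt.1 hi) with h5 | h5
      · subst h5
        rw [Function.update_self, hj]
        exact g3
      · rw [Function.update_of_ne h5.ne]
        show (y' i).c ≤ _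
        rw [ha i h5, ← g1]
  constructor
  · intro hε'
    rw [hε'] at g2
    exact down_meets _ _ (of_decide_eq_true g2) _ hle
  · intro hε'
    rw [hε'] at g2
    have h6 := of_decide_eq_false g2
    exact down_fnot _ _ ((hl3 b).resolve_left h6) _ hle

theorem exClosed : SeqClosed (Order.succ ℵ₁) Q.Ex := by
  intro J _ hne hJ p hp
  have h1 : ∀ j : I, ∃ q : Pt (Q.mu j) (Q.ka j) (Q.U j), ∀ i, q ≤ p i j := fun j =>
    Q.ptClosed j J hne (hJ.trans_le (Order.succ_le_of_lt ((Q.lam_ge j).trans_lt (Q.lam_lt_mu j))))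
      (fun i => p i j) (fun i i' hi => hp i i' hi j)
  choose q hq using h1
  exact ⟨q, fun i j => hq j i⟩

theorem tDENSE : S_DENSE := by
  intro Q N y
  obtain ⟨y', hy', h⟩ := (exClosed Q).exists_forall_mem (N := I)
    (by rw [mk_ord_toType]; exact Order.lt_succ _) (fun j => {y | ∃ ε, y ∈ DD Q N j ε})
    (by
      rintro j y ⟨ε, h⟩ y' hy'
      exact ⟨ε, DD_down Q N j ε _ h _ hy'⟩)
    (fun j y => step Q N j y) y
  choose h hh using h
  exact ⟨y', hy', h, fun j b hb => hh j b hb⟩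

end Pool.Agent.W597.LC
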